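import Pool.Agent.L5helper45.MB.Blocks

set_option autoImplicit false

/-! # Blocks of digital functions in several bases inside prime gaps of record length

Let `b_1, …, b_k ≥ 2` be pairwise coprime, let `G_1, …, G_k` be finite groups, not necessarily
abelian, and let `a_j : ℕ → G_j` be digital functions: `a_j (b_j n + d) = a_j n * a_j d` for
`d < b_j` (so `a_j n` is the product of the `a_j d` over the digits `d` of `n` in base `b_j`; for
example the sum of digits modulo an integer, and every invertible automatic sequence is a function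
of such an `a_j`).  Let `m ≥ 1`, `I` and `ε > 0`.  Then for all large `M` and for every `n₀` there is
an `n` in `(M, M + M ^ ε]`, congruent to `n₀` modulo `m`, at which the blocks of length `I + 1` of all
the functions `a_j` are those at `n₀`, and which has no prime within
`κ log M (log₂ M)² log₄ M / (log₃ M)²`.

Proof: in `ℓ² (G_j)` let `U` be the span of the functions on which the translations by the digits
act by powers of a `(b_j - 1)`-st root of unity.  On the complement of `U` two consecutive transfer
operators contract, and this bounds the exponential sums, hence (Parseval) the correlations of the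
`a_j` on average over the shift.  The van der Corput inequality in the tensor product and the Chinese
remainder theorem for the last digits give a power saving for the sums over short intervals
twisted by an arbitrary additive character.  The covering sieve of `MP_3bc45c_nt.RecordGaps`
(in the form of `TH915/PW/Crit.lean`) is dilated so that the primes dividing a fixed modulus are
not needed. -/

namespace Pool.Agent.Results.MP_69be96_nt.DigitBlocksInSeveralBases

open Filter

theorem result (k : ℕ) (b : Fin k → ℕ) (hb : ∀ j, 2 ≤ b j)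
    (hco : ∀ i j, i ≠ j → Nat.Coprime (b i) (b j)) (G : Fin k → Type) [∀ j, Group (G j)]
    [∀ j, Finite (G j)] (a : ∀ j, ℕ → G j)
    (ha : ∀ j n d, d < b j → a j (b j * n + d) = a j n * a j d) (m : ℕ) (hm : 1 ≤ m) (I : ℕ)
    (ε : ℝ) (hε : 0 < ε) :
    ∃ κ : ℝ, 0 < κ ∧ ∃ M₀ : ℝ, ∀ M : ℝ, M₀ ≤ M → ∀ n₀ : ℕ,
      ∃ n : ℕ, M < n ∧ (n : ℝ) ≤ M + M ^ ε ∧ n ≡ n₀ [MOD m] ∧
        (∀ j, ∀ i ≤ I, a j (n + i) = a j (n₀ + i)) ∧ ∀ q : ℕ, q.Prime →
        κ * (Real.log M * (Real.log (Real.log M)) ^ 2 *
          Real.log (Real.log (Real.log (Real.log M))) / (Real.log (Real.log (Real.log M))) ^ 2) <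
            |(q : ℝ) - n| := by
  classical
  have : ∀ j, Fintype (G j) := fun j => Fintype.ofFinite (G j)
  obtain ⟨κ, hκ, h⟩ := Pool.Agent.L5helper45.MB.blocks G b hb hco a ha m hm I (min ε 1)
    (by positivity) (min_le_right _ _)
  obtain ⟨M₀, hM₀⟩ := eventually_atTop.1 h
  refine ⟨κ, hκ, max M₀ 1, fun M hM n₀ => ?_⟩
  obtain ⟨n, h1, h2, h3, h4, h5⟩ := hM₀ M ((le_max_left _ _).trans hM) n₀
  refine ⟨n, h1, h2.trans ?_, h3, h4, h5⟩
  have : M ^ (min ε 1) ≤ M ^ ε :=
    Real.rpow_le_rpow_of_exponent_le ((le_max_right _ _).trans hM) (min_le_left _ _)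
  linarith

end Pool.Agent.Results.MP_69be96_nt.DigitBlocksInSeveralBases
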