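import Pool.Agent.L5helper1.IS.Main

set_option autoImplicit false

/-! # Arbitrary families of linear forms at a positive proportion of the primes

For every family `F` of linear forms `a n + b` with `ab ≠ 0`, whose coefficients may be as large as
`exp ((log X) ^ D)` and for which the sum of `|ab| / φ(|ab|)` is at most `lam * log X` (up to a constant factor,
`lam` bounds the number of primes which the conjecture of Hardy and Littlewood predicts among the values of the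
forms at a prime in `(X, 3X]`), a positive proportion of the primes `p` in `(X, 3X]` makes all the values
`a p + b` composite, with a prime factor `≤ X ^ δ`.

The relative theorem of Bombieri and Vinogradov (modules `Pool.Agent.L5helper11.IS`) and several other lemmas of
the proof are due to helper11; the covering sieve goes back to the modules `Pool.Agent.Y831.RC` and
`Pool.Agent.H378R2` of the starting files. -/

namespace Pool.Agent.Results.MP_69be96_nt.LinearFormsAtPrimes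

theorem result : ∃ C : ℝ, 0 < C ∧ ∀ D lam δ : ℝ, 0 < D → 0 < lam → 0 < δ → δ ≤ 1 / 2 →
    ∃ X₀ : ℝ, ∀ X : ℝ, X₀ ≤ X → ∀ F : Finset (ℤ × ℤ),
      (∀ f ∈ F, f.1 ≠ 0 ∧ f.2 ≠ 0 ∧ |(f.1 : ℝ)| ≤ Real.exp ((Real.log X) ^ D) ∧
        |(f.2 : ℝ)| ≤ Real.exp ((Real.log X) ^ D)) →
      ∑ f ∈ F, ((f.1 * f.2).natAbs : ℝ) / (Nat.totient (f.1 * f.2).natAbs : ℝ) ≤ lam * Real.log X →
      Real.exp (-Real.exp (C * (1 + lam * (1 + D) + 1 / δ))) * (X / Real.log X) ≤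
        (Set.ncard {p : ℕ | p.Prime ∧ X < (p : ℝ) ∧ (p : ℝ) ≤ 3 * X ∧ ∀ f ∈ F,
          ¬ (f.1 * (p : ℤ) + f.2).natAbs.Prime ∧
          X ^ δ < |((f.1 * (p : ℤ) + f.2 : ℤ) : ℝ)| ∧
          ∃ q : ℕ, q.Prime ∧ (q : ℝ) ≤ X ^ δ ∧ (q : ℤ) ∣ f.1 * (p : ℤ) + f.2} : ℝ) := by
  classical
  obtain ⟨C, hC, h⟩ := Pool.Agent.L5helper1.IS.main_thm
  refine ⟨C, hC, fun D lam δ hD hlam hδ hδ2 => ?_⟩
  obtain ⟨X₀, hX₀⟩ := h D lam δ hD hlam hδ hδ2
  refine ⟨max X₀ 1, fun X hX F hF hw => ?_⟩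
  have hX1 : X₀ ≤ X := (le_max_left _ _).trans hX
  have hX2 : (1:ℝ) ≤ X := (le_max_right _ _).trans hX
  have h1 := hX₀ X hX1 F (fun f hf => ⟨(hF f hf).1, (hF f hf).2.1⟩)
    (fun f hf => ⟨(hF f hf).2.2.1, (hF f hf).2.2.2⟩) hw
  refine h1.trans ?_
  rw [← Set.ncard_coe_finset]
  have hset : (((Finset.Icc 1 ⌊3 * X⌋₊).filter (fun n : ℕ => n.Prime ∧ X < (n : ℝ) ∧ ∀ f ∈ F,
      X ^ δ < |((f.1 * (n : ℤ) + f.2 : ℤ) : ℝ)| ∧
      ∃ q : ℕ, q.Prime ∧ (q : ℝ) ≤ X ^ δ ∧ (q : ℤ) ∣ f.1 * (n : ℤ) + f.2) : Finset ℕ) : Set ℕ) =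
      {p : ℕ | p.Prime ∧ X < (p : ℝ) ∧ (p : ℝ) ≤ 3 * X ∧ ∀ f ∈ F,
          ¬ (f.1 * (p : ℤ) + f.2).natAbs.Prime ∧
          X ^ δ < |((f.1 * (p : ℤ) + f.2 : ℤ) : ℝ)| ∧
          ∃ q : ℕ, q.Prime ∧ (q : ℝ) ≤ X ^ δ ∧ (q : ℤ) ∣ f.1 * (p : ℤ) + f.2} := by
    ext n
    simp only [Finset.coe_filter, Finset.mem_Icc, Set.mem_ofPred_eq]
    constructor
    · rintro ⟨⟨_, h2⟩, h3, h4, h5⟩
      refine ⟨h3, h4, ?_, fun f hf => ⟨?_, h5 f hf⟩⟩
      · exact (by exact_mod_cast h2 : (n : ℝ) ≤ ((⌊3 * X⌋₊ : ℕ) : ℝ)).trans (Nat.floor_le (by linarith))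
      · intro hpr
        obtain ⟨h6, q, hq1, hq2, hq3⟩ := h5 f hf
        have h7 : q ∣ (f.1 * (n : ℤ) + f.2).natAbs := Int.natCast_dvd.1 hq3
        have h8 := (Nat.prime_dvd_prime_iff_eq hq1 hpr).1 h7
        have h9 : |((f.1 * (n : ℤ) + f.2 : ℤ) : ℝ)| = (q : ℝ) := by
          rw [h8, Nat.cast_natAbs, Int.cast_abs]
        linarith
    · rintro ⟨h3, h4, h2, h5⟩
      exact ⟨⟨h3.one_lt.le, Nat.le_floor h2⟩, h3, h4, fun f hf => (h5 f hf).2⟩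
  rw [hset]

end Pool.Agent.Results.MP_69be96_nt.LinearFormsAtPrimes
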