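import Pool.Agent.L5helper97.RG.Inv2

set_option autoImplicit false

/-!
# Record prime gaps at modular inverses

Let `p` be a large prime and `f(p) = log p (log₂ p)² log₄ p / (log₃ p)²` the record size of the gaps
between primes near a power of `p` (up to a constant).  A vector `z` of integers is called good if every
monomial in its coordinates with coprime exponents `≤ E` is the centre of a run of `κ f(p)` integers with a
prime factor `≤ p ^ δ`.  We show that the following families of vectors modulo `p` have many members which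
are represented by good vectors of integers in boxes with sides a little shorter than `p`:

* `c_x y + d_x / y + u(x) + v(y)`, `x ∈ X`, `y ∈ Y`, with arbitrary vectors `c_x`, `d_x`, `u(x)`, `v(y)`, under
  a condition on the number of coincidences;
* the four residues `a b`, `a / b`, `b / a`, `1 / (a b)`, each shifted by arbitrary functions of `a` and
  of `b`, `a ∈ A`, `b ∈ B`, with arbitrary sets `A`, `B` of units with `|A| |B| ≥ p ^ (1 + 4 ε)`;
* the inverses of sums `1 / (a + b)`, also shifted, for arbitrary sets with `|A| |B| ≥ p ^ (1 + 4 ε)`;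
* the points of the modular hyperbolas `(m + s)(n + t) = u` in boxes with `L₀ L₁ ≥ p ^ (3/2 + δ)`.

Method: Weil's bound for Kloosterman sums (starting files, `Pool.Agent.H498R2.kloosterman_prime`), the
Cauchy-Schwarz inequality, and the joint covering criterion for families of vectors
(`Pool.Agent.N39.RG.mainE`).
-/

namespace Pool.Agent.Results.MP_69be96_nt.ModularInverses

open Finset

/-- the record scale for gaps between primes -/
noncomputable def f (x : ℝ) : ℝ :=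
  Real.log x * (Real.log (Real.log x)) ^ 2 * Real.log (Real.log (Real.log (Real.log x))) /
    (Real.log (Real.log (Real.log x))) ^ 2

/-- all the integers at distance at most `κ f(p)` from `n` have a prime factor at most `p ^ δ` -/
def Centre (κ δ : ℝ) (p : ℕ) (n : ℤ) : Prop :=
  ∀ m : ℤ, |(m : ℝ) - n| ≤ κ * f p → ∃ l : ℕ, l.Prime ∧ (l : ℝ) ≤ (p : ℝ) ^ δ ∧ (l : ℤ) ∣ m

/-- all the monomials in `z` with coprime exponents at most `E` are centres -/
def Good (κ δ : ℝ) (E p : ℕ) {k : ℕ} (z : Fin k → ℤ) : Prop :=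
  ∀ e : Fin k → ℕ, (∀ j, e j ≤ E) → Finset.univ.gcd e = 1 → Centre κ δ p (∏ j, z j ^ e j)

open scoped Classical in
/-- the number of the members `R i`, `i ∈ S`, of the family of vectors modulo `p` which are represented by
good vectors of integers in the box `∏ (M j, M j + L j]` is at least `p ^ (-δ)` times the expected number
`|S| ∏ (L j / p)` of the members in the box -/
def Many (κ δ : ℝ) (E p : ℕ) {k : ℕ} {ι : Type} (S : Finset ι) (R : ι → Fin k → ZMod p)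
    (M : Fin k → ℤ) (L : Fin k → ℕ) : Prop :=
  (p : ℝ) ^ (-δ) * (S.card * ∏ j, ((L j : ℝ) / p)) ≤
    ((S.filter (fun i => ∃ z : Fin k → ℤ,
      (∀ j, M j < z j ∧ z j ≤ M j + L j ∧ ((z j : ℤ) : ZMod p) = R i j) ∧ Good κ δ E p z)).card : ℝ)

open scoped Classical in
/-- **Record prime gaps at modular inverses.** -/
theorem result (E : ℕ) (δ : ℝ) (hδ : 0 < δ) (hδ1 : δ ≤ 1) :
    -- families `c_x y + d_x / y + u(x) + v(y)`
    (∀ k : ℕ, ∃ κ : ℝ, 0 < κ ∧ ∃ p₀ : ℕ, ∀ (p : ℕ) [Fact p.Prime], p₀ ≤ p →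
      ∀ (ε : ℝ) (I : Type) (X : Finset I) (Y : Finset (ZMod p)ˣ) (c d u : I → Fin k → ZMod p)
        (v : (ZMod p)ˣ → Fin k → ZMod p), X.Nonempty →
      (p : ℝ) ^ (1 / 2 + 2 * ε) ≤ Y.card →
      (∀ α : Fin k → ZMod p, α ≠ 0 →
        (((X ×ˢ X).filter (fun q => ∑ j, α j * (c q.1 j - c q.2 j) = 0 ∧
            ∑ j, α j * (d q.1 j - d q.2 j) = 0)).card : ℝ) *
          (p : ℝ) ^ (1 + 2 * ε) ≤ (X.card : ℝ) ^ 2 * Y.card) →
      ∀ (M : Fin k → ℤ) (L : Fin k → ℕ), (∀ j, (p : ℝ) ^ δ ≤ L j ∧ L j ≤ p) →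
        (p : ℝ) ^ ((k : ℝ) - ε + δ) ≤ ∏ j, (L j : ℝ) →
      Many κ δ E p (X ×ˢ Y) (fun q j => c q.1 j * (q.2 : ZMod p) +
        d q.1 j * ((q.2⁻¹ : (ZMod p)ˣ) : ZMod p) + u q.1 j + v q.2 j) M L) ∧
    -- the four residues `a b`, `a / b`, `b / a`, `1 / (a b)`
    (∃ κ : ℝ, 0 < κ ∧ ∃ p₀ : ℕ, ∀ (p : ℕ) [Fact p.Prime], p₀ ≤ p →
      ∀ (ε : ℝ) (A B : Finset (ZMod p)ˣ) (u v : (ZMod p)ˣ → Fin 4 → ZMod p),
      (p : ℝ) ^ (1 + 4 * ε) ≤ A.card * B.card →
      ∀ (M : Fin 4 → ℤ) (L : Fin 4 → ℕ), (∀ j, (p : ℝ) ^ δ ≤ L j ∧ L j ≤ p) →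
        (p : ℝ) ^ (4 - ε + δ) ≤ ∏ j, (L j : ℝ) →
      Many κ δ E p (A ×ˢ B) (fun q j => ((![q.1 * q.2, q.1 / q.2, q.2 / q.1, (q.1 * q.2)⁻¹] j :
        (ZMod p)ˣ) : ZMod p) + u q.1 j + v q.2 j) M L) ∧
    -- the inverses of the sums
    (∃ κ : ℝ, 0 < κ ∧ ∃ p₀ : ℕ, ∀ (p : ℕ) [Fact p.Prime], p₀ ≤ p →
      ∀ (ε : ℝ) (A B : Finset (ZMod p)) (u v : ZMod p → ZMod p),
      (p : ℝ) ^ (1 + 4 * ε) ≤ A.card * B.card →
      ∀ (M : ℤ) (L : ℕ), L ≤ p → (p : ℝ) ^ (1 - ε + δ) ≤ L →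
      Many κ δ E p (A ×ˢ B) (fun q (_ : Fin 1) => (q.1 + q.2)⁻¹ + u q.1 + v q.2)
        (fun _ => M) (fun _ => L)) ∧
    -- the modular hyperbolas
    (∃ κ : ℝ, 0 < κ ∧ ∃ p₀ : ℕ, ∀ (p : ℕ) [Fact p.Prime], p₀ ≤ p →
      ∀ s t u : ZMod p, u ≠ 0 → ∀ (M : Fin 2 → ℤ) (L : Fin 2 → ℕ), (∀ j, L j ≤ p) →
        (p : ℝ) ^ (3 / 2 + δ) ≤ L 0 * L 1 →
      (p : ℝ) ^ (-δ) * (L 0 * L 1 / p) ≤
        (((Fintype.piFinset fun j => Ioc (M j) (M j + L j)).filter (fun z =>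
          ((z 0 : ZMod p) + s) * ((z 1 : ZMod p) + t) = u ∧ Good κ δ E p z)).card : ℝ)) := by
  refine ⟨fun k => ?_, ?_, ?_, ?_⟩
  · obtain ⟨κ, hκ, p₀, h⟩ := Pool.Agent.L5helper97.RG.families k E δ hδ hδ1
    refine ⟨κ, hκ, p₀, ?_⟩
    intro p _ hp ε I X Y c d u v hX hY hT M L hL hV
    exact h p hp ε I X Y c d u v hX hY hT M L hL hV
  · obtain ⟨κ, hκ, p₀, h⟩ := Pool.Agent.L5helper97.RG.four E δ hδ hδ1
    refine ⟨κ, hκ, p₀, ?_⟩
    intro p _ hp ε A B u v hAB M L hL hV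
    exact h p hp ε A B u v hAB M L hL hV
  · obtain ⟨κ, hκ, p₀, h⟩ := Pool.Agent.L5helper97.RG.inverse_sums E δ hδ hδ1
    refine ⟨κ, hκ, p₀, ?_⟩
    intro p _ hp ε A B u v hAB M L hLp hL
    exact h p hp ε A B u v hAB M L hLp hL
  · obtain ⟨κ, hκ, p₀, h⟩ := Pool.Agent.L5helper97.RG.hyperbola E δ hδ hδ1
    refine ⟨κ, hκ, p₀, ?_⟩
    intro p _ hp s t u hu M L hLp hL
    exact h p hp s t u hu M L hLp hL

end Pool.Agent.Results.MP_69be96_nt.ModularInverses
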