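import Pool.Agent.L5helper16.LG.Fin3
import Pool.Agent.L5helper16.LG.D3
import Pool.Agent.L5helper37.LG.B1
import Pool.Agent.L5helper41.LG.B2
import Pool.Agent.L5helper84.LG.B3
import Pool.Agent.L5helper24.LG.B4
import Pool.Agent.L5helper96.LG.B5
import Pool.Agent.L5helper78.LG.B6
import Pool.Agent.L5helper46.LG.B8
import Pool.Agent.L5helper50.LG.B9
import Pool.Agent.L5helper69.LG.A3
import Pool.Agent.L5helper84.LG.A4
import Pool.Agent.L5helper65.LG.A6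
import Pool.Agent.L5helper17.LG.C1
import Pool.Agent.L5helper71.LG.C2
import Pool.Agent.L5helper82.LG.C3
import Pool.Agent.L5helper70.LG.C4
import Pool.Agent.L5helper1.LG.C5
import Pool.Agent.L5helper33.LG.C6
import Pool.Agent.L5helper15.LG.D1
import Pool.Agent.L5helper65.LG.D2
import Pool.Agent.L5helper43.LG.D5

/-! MP_69be96_nt (helper16): the question for a semi-random set in place of the primes: the sieve of Eratosthenes is exact
for the primes `p ≤ w n` and random for the primes `w n < p ≤ n ^ θ`. -/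

set_option autoImplicit false

namespace Pool.Agent.Results.MP_69be96_nt.SemiRandomGaps

open Finset MeasureTheory ProbabilityTheory Filter Topology

/-- the semi-random set `R`: the positive integers `n` without prime factors `p ≤ w n` and with `n ≢ a p` modulo `p` for
the primes `w n < p ≤ n ^ θ` -/
def InR (w : ℕ → ℝ) (θ : ℝ) (a : ℕ → ℕ) (n : ℕ) : Prop :=
  0 < n ∧ ∀ p : ℕ, p.Prime → ((p : ℝ) ≤ w n → ¬ p ∣ n) ∧ (w n < p → (p : ℝ) ≤ (n : ℝ) ^ θ → ¬ n ≡ a p [MOD p])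

/-- `r < s` are consecutive elements of the set `R` -/
def Next (R : ℕ → Prop) (r s : ℕ) : Prop := R r ∧ R s ∧ r < s ∧ ∀ n : ℕ, r < n → n < s → ¬ R n

open L5helper86.UL L5helper16.LG

lemma lg_I : St_I := by
  have b1 : St_B1 := @L5helper37.LG.b1
  have b2 : St_B2 := L5helper41.LG.b2
  have b3 : St_B3 := @L5helper84.LG.b3 b1 b2
  have b4 : St_B4 := L5helper24.LG.b4 b2
  have b5 : St_B5 := L5helper96.LG.b5 b4
  have b6 : St_B6 := @L5helper78.LG.b6 b1 b2 b3 b4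
  have b8 : St_B8 := @L5helper46.LG.b8 b3 b6
  have b9 : St_B9 := @L5helper50.LG.b9
  have a3 : St_A3 := L5helper69.LG.a3
  have a4 : St_A4 := L5helper84.LG.a4
  have a6 : St_A6 := L5helper65.LG.a6
  have c1 : St_C1 := L5helper17.LG.c1
  have c2 : St_C2 := L5helper71.LG.c2
  have c3 : St_C3 := L5helper82.LG.c3 a3 c1 c2
  have c4 : St_C4 := L5helper70.LG.c4
  have c5 : St_C5 := L5helper1.LG.c5
  have c6 : St_C6 := L5helper33.LG.c6 a3 a4 c3 c4 c5
  have d1 : St_D1 := @L5helper15.LG.d1 b3 b4 b5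
  have d2 : St_D2 := @L5helper65.LG.d2 b9
  have d3 : St_D3 := L5helper16.LG.d3
  have d5 : St_D5 := L5helper43.LG.d5
  exact @L5helper16.LG.icount b3 b5 b8 a4 a6 c6 d1 d2 d3 d5

open Classical in
theorem result {Ω : Type} [MeasurableSpace Ω] (P : Measure Ω) [IsProbabilityMeasure P] (a : ℕ → Ω → ℕ)
    (hmeas : ∀ p, Measurable (a p)) (hind : iIndepFun (fun p : Nat.Primes => a p) P)
    (hunif : ∀ p r : ℕ, p.Prime → r < p → P.real {ω | a p ω = r} = 1 / p)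
    (θ : ℝ) (hθ : 0 < θ) (w : ℕ → ℝ) (hw : Monotone w) (hlow : ∀ᶠ n : ℕ in atTop, (Real.log n) ^ 7 ≤ w n)
    (hup : ∀ ε : ℝ, 0 < ε → ∀ᶠ n : ℕ in atTop, w n ≤ Real.exp (ε * Real.log n / Real.log (Real.log n))) :
    1 / 2 < Real.exp (-Real.eulerMascheroniConstant) ∧ ∀ᵐ ω ∂P,
      Tendsto (fun x : ℕ => (#((Icc 1 x).filter fun r : ℕ => InR w θ (fun p => a p ω) r) : ℝ) * (Real.log x / x)) atTop
        (𝓝 (Real.exp (-Real.eulerMascheroniConstant) / θ)) ∧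
      (∀ ε : ℝ, 0 < ε → ∀ᶠ x : ℕ in atTop, ∀ r s : ℕ, r ≤ x → Next (InR w θ (fun p => a p ω)) r s →
        (s : ℝ) - r ≤ (x : ℝ) ^ ε) ∧
      (∀ c ε : ℝ, 0 < c → 0 < ε → c / (2 * θ) + ε < 1 → ∀ᶠ x : ℕ in atTop, (x : ℝ) ^ (1 - c / (2 * θ) - ε) ≤
        #((Icc 1 x).filter fun r : ℕ => (x : ℝ) ^ (1 - ε) ≤ r ∧ ∃ s : ℕ, s ≤ x ∧
          Next (InR w θ (fun p => a p ω)) r s ∧ |(s : ℝ) - r - c * Real.log x ^ 2| ≤ ε * Real.log x ^ 2)) ∧
      (∀ α : ℝ, 0 ≤ α → α ≤ 2 * θ → ∀ ε : ℝ, 0 < ε → {r : ℕ | ∃ s : ℕ, Next (InR w θ (fun p => a p ω)) r s ∧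
        |((s : ℝ) - r) / Real.log r ^ 2 - α| < ε}.Infinite) ∧
      (1 / 2 < θ → {r : ℕ | ∃ s : ℕ, Next (InR w θ (fun p => a p ω)) r s ∧
        Real.log r ^ 2 ≤ (s : ℝ) - r - 1}.Infinite) := by
  have hS : L5helper86.UL.Sys P a := ⟨inferInstance, hmeas, hind, hunif⟩
  have hlogT : Tendsto (fun n : ℕ => Real.log n) atTop atTop := Real.tendsto_log_atTop.comp tendsto_natCast_atTop_atTop
  have hw5 : ∀ᶠ v : ℕ in atTop, (Real.log v) ^ 5 ≤ w v := by
    filter_upwards [hlow, hlogT.eventually_ge_atTop 1] with v h1 h2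
    exact (pow_le_pow_right₀ h2 (by norm_num)).trans h1
  refine ⟨half_lt, ?_⟩
  filter_upwards [set_density hS hθ hw hup, short hS hθ hw hw5 hup, many2 hS lg_I hθ hw hlow hup] with ω h1 h2 h3
  have h4 := limits hθ h3
  refine ⟨?_, ?_, h3, h4, fun hθ2 => q1_fails hθ2 (h4 (2 * θ) (by positivity) le_rfl)⟩
  · refine h1.congr fun x => ?_
    congr 1
    exact density_InR w θ _ x
  · intro ε hε
    have hbig : ∀ᶠ x : ℕ in atTop, (2 : ℝ) ≤ (x : ℝ) ^ (ε / 2) :=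
      ((tendsto_rpow_atTop (by positivity)).comp tendsto_natCast_atTop_atTop).eventually_ge_atTop _
    filter_upwards [h2 (ε / 2) (by positivity), hbig, eventually_ge_atTop 1] with x h4 h5 h6 r s hr hrs
    obtain ⟨t, h7, h8, h9⟩ := h4 r hr
    have h10 : s ≤ t := by
      by_contra hcon
      exact hrs.2.2.2 t h7 (by omega) h9
    have hx0 : (0 : ℝ) < x := by exact_mod_cast h6
    have h11 : (s : ℝ) ≤ r + (⌈(x : ℝ) ^ (ε / 2)⌉₊ : ℝ) := by exact_mod_cast h10.trans h8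
    have h12 := (Nat.ceil_lt_add_one (show 0 ≤ (x : ℝ) ^ (ε / 2) by positivity)).le
    have h13 : (x : ℝ) ^ ε = (x : ℝ) ^ (ε / 2) * (x : ℝ) ^ (ε / 2) := by
      rw [← Real.rpow_add hx0]
      congr 1
      ring
    rw [h13]
    nlinarith

end Pool.Agent.Results.MP_69be96_nt.SemiRandomGaps
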